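import Pool.Agent.H63.TC.Stmts

/-!
# Module COV: uniform sections give a covering map
-/

open Set Filter Topology

namespace Pool.Agent.H63.TC

/-- Module COV -/
theorem cov : CovStmt := by
  intro X N _ _ _ π hπ hinj hsec n₀
  have hli : IsLocallyInjective π := fun x => by
    obtain ⟨O, hO, h⟩ := hinj x
    obtain ⟨O', h1, h2, h3⟩ := mem_nhds_iff.1 hO
    exact ⟨O', h2, h3, h.mono h1⟩
  obtain ⟨U, hU, hnU, hUc, hs⟩ := hsec n₀
  choose s hsc hsπ hss using hs
  -- uniqueness of sections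
  have huniq : ∀ (f g : N → X), ContinuousOn f U → ContinuousOn g U → (∀ n ∈ U, π (f n) = n) →
      (∀ n ∈ U, π (g n) = n) → ∀ a ∈ U, f a = g a → EqOn f g U := by
    intro f g hf hg hfπ hgπ a ha hfg
    exact (T2Space.isSeparatedMap π).eqOn_of_comp_eqOn hli hUc hf hg
      (fun n hn => (hfπ n hn).trans (hgπ n hn).symm) ha hfg
  have hd : DiscreteTopology (π ⁻¹' {n₀}) := by
    rw [discreteTopology_iff_isOpen_singleton]
    intro e
    obtain ⟨O, hO, heO, hOi⟩ := hli e
    have : ({e} : Set (π ⁻¹' {n₀})) = Subtype.val ⁻¹' O := by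
      ext e'
      constructor
      · rintro rfl
        exact heO
      · intro h
        exact Subtype.ext (hOi h heO (e'.2.trans e.2.symm))
    rw [this]
    exact hO.preimage continuous_subtype_val
  have hF : ∀ e : π ⁻¹' {n₀}, π e.1 ∈ U := fun e => by
    have : π e.1 = n₀ := e.2
    rw [this]; exact hnU
  refine ⟨hd, U, hnU, hU, hU.preimage hπ, ?_⟩
  refine ⟨{ toFun := fun x => (⟨π x.1, x.2⟩, ⟨s x.1 x.2 n₀, hsπ x.1 x.2 n₀ hnU⟩)
            invFun := fun y => ⟨s y.2.1 (hF y.2) y.1.1, by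
              rw [mem_preimage, hsπ _ _ _ y.1.2]; exact y.1.2⟩
            left_inv := ?_
            right_inv := ?_
            continuous_toFun := ?_
            continuous_invFun := ?_ }, fun x => rfl⟩
  · rintro ⟨x, hx⟩
    have hx' : π x ∈ U := hx
    have h1 : π (s x hx n₀) = n₀ := hsπ x hx n₀ hnU
    have h2 : π (s x hx n₀) ∈ U := by rw [h1]; exact hnU
    have h3 := hss (s x hx n₀) h2
    rw [h1] at h3
    have h4 := huniq _ _ (hsc _ h2) (hsc x hx) (hsπ _ h2) (hsπ x hx) n₀ hnU h3 hx'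
    exact Subtype.ext (h4.trans (hss x hx))
  · rintro ⟨⟨n, hn⟩, ⟨e, he⟩⟩
    have he' : π e = n₀ := he
    have heU : π e ∈ U := by rw [he']; exact hnU
    have h1 : π (s e heU n) = n := hsπ e heU n hn
    have h2 : π (s e heU n) ∈ U := by rw [h1]; exact hn
    have h3 := hss (s e heU n) h2
    rw [h1] at h3
    have h4 := huniq _ _ (hsc _ h2) (hsc e heU) (hsπ _ h2) (hsπ e heU) n hn h3 hnU
    have h5 := hss e heU
    rw [he'] at h5
    refine Prod.ext (Subtype.ext h1) (Subtype.ext (h4.trans h5))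
  · refine Continuous.prodMk ?_ ?_
    · exact (hπ.comp continuous_subtype_val).subtype_mk _
    · have : IsLocallyConstant
          (fun x : π ⁻¹' U => (⟨s x.1 x.2 n₀, hsπ x.1 x.2 n₀ hnU⟩ : π ⁻¹' {n₀})) := by
        rw [IsLocallyConstant.iff_eventually_eq]
        rintro ⟨x, hx⟩
        have hx' : π x ∈ U := hx
        obtain ⟨O, hO, hxO, hOi⟩ := hli x
        have h1 : ContinuousAt (fun x' => s x hx (π x')) x :=
          ContinuousAt.comp (g := s x hx) (f := π)
            ((hsc x hx).continuousAt (hU.mem_nhds hx')) hπ.continuousAt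
        have h2 : ∀ᶠ x' in 𝓝 x, s x hx (π x') ∈ O := by
          apply h1
          have h0 : s x hx (π x) = x := hss x hx
          change O ∈ 𝓝 (s x hx (π x))
          rw [h0]
          exact hO.mem_nhds hxO
        have h3 : ∀ᶠ x' in 𝓝 x, x' ∈ O := hO.mem_nhds hxO
        have h4 : ∀ᶠ x' in 𝓝 (⟨x, hx⟩ : π ⁻¹' U), s x hx (π x'.1) ∈ O ∧ x'.1 ∈ O := by
          have h5 : Tendsto (fun x' : π ⁻¹' U => x'.1) (𝓝 (⟨x, hx⟩ : π ⁻¹' U)) (𝓝 x) :=
            continuous_subtype_val.continuousAt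
          exact h5.eventually (h2.and h3)
        filter_upwards [h4] with x' h
        have h5 : s x hx (π x'.1) = x'.1 := hOi h.1 h.2 (hsπ x hx _ x'.2)
        have h6 := huniq _ _ (hsc x'.1 x'.2) (hsc x hx) (hsπ x'.1 x'.2) (hsπ x hx) (π x'.1) x'.2
          ((hss x'.1 x'.2).trans h5.symm) hnU
        exact Subtype.ext h6
      exact this.continuous
  · refine Continuous.subtype_mk ?_ _
    rw [continuous_prod_of_discrete_right]
    intro e
    exact (hsc e.1 (hF e)).comp_continuous continuous_subtype_val fun n => n.2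

end Pool.Agent.H63.TC
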