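import Pool.Agent.H63.TC.Stmts

/-!
# Modules LIFE, ATL, DECK: lifts through `E`
-/

open Complex Metric Set Filter Topology

namespace Pool.Agent.H63.TC

/-- lifting on convex sets, for a covering of `MM` -/
theorem life_aux {V : Type} [TopologicalSpace V] (E : V → ℂ × ℂ) (mem : ∀ p, E p ∈ MM)
    (hE : IsCoveringMap (fun p => (⟨E p, mem p⟩ : MM)))
    {N : Type} [NormedAddCommGroup N] [NormedSpace ℝ N] (S : Set N) (g : N → ℂ × ℂ) (s₀ : N)
    (p₀ : V) (hS : Convex ℝ S) (hs : s₀ ∈ S) (hg : ContinuousOn g S) (hgM : ∀ s ∈ S, g s ∈ MM)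
    (h₀ : E p₀ = g s₀) :
    ∃ G : N → V, ContinuousOn G S ∧ (∀ s ∈ S, E (G s) = g s) ∧ G s₀ = p₀ := by
  classical
  have : ContractibleSpace S := hS.contractibleSpace ⟨s₀, hs⟩
  have : LocallyPathConnectedSpace S := hS.locallyPathConnectedSpace
  let f : C(S, MM) := ⟨fun s => ⟨g s, hgM s s.2⟩, by
    refine Continuous.subtype_mk ?_ _
    exact hg.domRestrict⟩
  obtain ⟨F, ⟨hF0, hF⟩, -⟩ := hE.existsUnique_continuousMap_lifts f ⟨s₀, hs⟩ p₀
    (Subtype.ext h₀)
  refine ⟨fun s => if h : s ∈ S then F ⟨s, h⟩ else p₀, ?_, ?_, ?_⟩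
  · rw [continuousOn_iff_continuous_domRestrict]
    refine F.continuous.congr fun s => ?_
    simp [Set.domRestrict]
  · intro s hs'
    simp only [dif_pos hs']
    have := congrFun hF ⟨s, hs'⟩
    exact congrArg Subtype.val this
  · simp only [dif_pos hs, hF0]

/-- Module LIFE -/
theorem life : LifeStmt := by
  intro V _ A N _ _ S g s₀ p₀ hS hs hg hgM h₀
  exact life_aux A.E A.mem A.cov S g s₀ p₀ hS hs hg hgM h₀

/-- Module ATL -/
theorem atl : AtlStmt := by
  intro V _ E mem hE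
  have hEc : Continuous E := continuous_subtype_val.comp hE.continuous
  have h1 : ∀ p, ∃ G : ℂ × ℂ → V, ContinuousOn G (ball (E p) (dd (E p))) ∧
      (∀ m ∈ ball (E p) (dd (E p)), E (G m) = m) ∧ G (E p) = p := fun p =>
    life_aux E mem hE (ball (E p) (dd (E p))) (fun m => m) (E p) p (convex_ball _ _)
      (mem_ball_self (dd_pos (mem p))) continuousOn_id (fun m hm => ball_dd_subset hm) rfl
  choose sec hc hs h0 using h1
  have hself : ∀ p, E p ∈ ball (E p) (dd (E p)) := fun p => mem_ball_self (dd_pos (mem p))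
  have hnear : ∀ p, ∀ᶠ q in 𝓝 p, sec p (E q) = q := by
    intro p
    obtain ⟨O, hO, hpO, hOi⟩ := hE.isLocalHomeomorph.isLocallyInjective p
    have h1 : ContinuousAt (fun q => sec p (E q)) p :=
      ContinuousAt.comp (g := sec p) (f := E) ((hc p).continuousAt (isOpen_ball.mem_nhds (hself p)))
        hEc.continuousAt
    have h2 : ∀ᶠ q in 𝓝 p, sec p (E q) ∈ O := by
      apply h1
      change O ∈ 𝓝 (sec p (E p))
      rw [h0]
      exact hO.mem_nhds hpO
    have h3 : ∀ᶠ q in 𝓝 p, q ∈ O := hO.mem_nhds hpO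
    have h4 : ∀ᶠ q in 𝓝 p, E q ∈ ball (E p) (dd (E p)) :=
      hEc.continuousAt.eventually (isOpen_ball.mem_nhds (hself p))
    filter_upwards [h2, h3, h4] with q h2 h3 h4
    exact hOi h2 h3 (Subtype.ext (hs p _ h4))
  refine ⟨⟨E, mem, hE, sec, hs, h0, ?_, hnear⟩, rfl⟩
  rintro ⟨p₀, m₀⟩ hm₀
  change m₀ ∈ ball (E p₀) (dd (E p₀)) at hm₀
  refine ContinuousAt.continuousWithinAt ?_
  have h1 : ContinuousAt (fun x : V × (ℂ × ℂ) => sec p₀ x.2) (p₀, m₀) :=
    ContinuousAt.comp (g := sec p₀) (f := fun x : V × (ℂ × ℂ) => x.2)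
      ((hc p₀).continuousAt (isOpen_ball.mem_nhds hm₀)) continuousAt_snd
  refine h1.congr ?_
  have hfst : Tendsto (fun x : V × (ℂ × ℂ) => x.1) (𝓝 (p₀, m₀)) (𝓝 p₀) := continuousAt_fst
  have hsnd : Tendsto (fun x : V × (ℂ × ℂ) => x.2) (𝓝 (p₀, m₀)) (𝓝 m₀) := continuousAt_snd
  have h2 : ∀ᶠ x : V × (ℂ × ℂ) in 𝓝 (p₀, m₀), sec p₀ (E x.1) = x.1 :=
    hfst.eventually (hnear p₀)
  have h3 : ∀ᶠ x : V × (ℂ × ℂ) in 𝓝 (p₀, m₀), x.2 ∈ ball (E p₀) (dd (E p₀)) :=
    hsnd.eventually (isOpen_ball.mem_nhds hm₀)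
  have h4 : ∀ᶠ x : V × (ℂ × ℂ) in 𝓝 (p₀, m₀), x.2 ∈ ball (E x.1) (dd (E x.1)) := by
    have : IsOpen {x : V × (ℂ × ℂ) | x.2 ∈ ball (E x.1) (dd (E x.1))} := by
      simp only [mem_ball]
      exact isOpen_lt (continuous_snd.dist (hEc.comp continuous_fst))
        (continuous_dd.comp (hEc.comp continuous_fst))
    exact this.mem_nhds hm₀
  have h5 : ∀ᶠ x : V × (ℂ × ℂ) in 𝓝 (p₀, m₀), E x.1 ∈ ball (E p₀) (dd (E p₀)) :=
    (hEc.comp continuous_fst).continuousAt.eventually (isOpen_ball.mem_nhds (hself p₀))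
  filter_upwards [h2, h3, h4, h5] with x h2 h3 h4 h5
  have hconv : Convex ℝ (ball (E p₀) (dd (E p₀)) ∩ ball (E x.1) (dd (E x.1))) :=
    (convex_ball _ _).inter (convex_ball _ _)
  have h6 := hE.eqOn_of_comp_eqOn hconv.isPreconnected ((hc p₀).mono inter_subset_left)
    ((hc x.1).mono inter_subset_right)
    (fun m hm => Subtype.ext ((hs p₀ m hm.1).trans (hs x.1 m hm.2).symm))
    (a := E x.1) ⟨h5, hself x.1⟩ (h2.trans (h0 x.1).symm)
  exact h6 ⟨h3, h4⟩

/-- Module DECK -/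
theorem deck : DeckStmt := by
  intro V _ _ A p q hpq
  have := A.locallyPathConnected
  let e : C(V, MM) := ⟨fun p => ⟨A.E p, A.mem p⟩, A.cov.continuous⟩
  obtain ⟨F, ⟨hF0, hF⟩, -⟩ := A.cov.existsUnique_continuousMap_lifts e p q (Subtype.ext hpq.symm)
  obtain ⟨F', ⟨hF0', hF'⟩, -⟩ := A.cov.existsUnique_continuousMap_lifts e q p (Subtype.ext hpq)
  have hE : ∀ x, A.E (F x) = A.E x := fun x => congrArg Subtype.val (congrFun hF x)
  have hE' : ∀ x, A.E (F' x) = A.E x := fun x => congrArg Subtype.val (congrFun hF' x)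
  have h1 : F' ∘ F = id := by
    refine A.cov.eq_of_comp_eq (F'.continuous.comp F.continuous) continuous_id ?_ p ?_
    · funext x
      exact Subtype.ext ((hE' _).trans (hE x))
    · simp [hF0, hF0']
  have h2 : F ∘ F' = id := by
    refine A.cov.eq_of_comp_eq (F.continuous.comp F'.continuous) continuous_id ?_ q ?_
    · funext x
      exact Subtype.ext ((hE _).trans (hE' x))
    · simp [hF0, hF0']
  exact ⟨{ toFun := F, invFun := F', left_inv := congrFun h1, right_inv := congrFun h2,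
           continuous_toFun := F.continuous, continuous_invFun := F'.continuous }, hE, hF0⟩

end Pool.Agent.H63.TC
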