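import Pool.Agent.H63.TC.FinDefs

/-!
# Modules MMC, UNI, SCV
-/

open Complex Metric Set Filter Topology

namespace Pool.Agent.H63.TC

/-! ## MMC -/

theorem mmc_isPathConnected (s : Set ℂ) (hs : s.Finite) : IsPathConnected sᶜ := by
  refine Set.Countable.isPathConnected_compl_of_one_lt_rank ?_ hs.countable
  rw [Complex.rank_real_complex]
  exact Cardinal.one_lt_two

theorem mmc_joinedIn_snd {x y y' : ℂ} (h : (x, y) ∈ MM) (h' : (x, y') ∈ MM) :
    JoinedIn MM (x, y) (x, y') := by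
  have h1 : IsPathConnected (({0, 1, x} : Set ℂ)ᶜ) := mmc_isPathConnected _ (by simp)
  have h2 := h1.image (f := fun y : ℂ => (x, y)) (by fun_prop)
  have hmem : ∀ y : ℂ, (x, y) ∈ MM → y ∈ ({0, 1, x} : Set ℂ)ᶜ := by
    intro y hy
    obtain ⟨-, -, h3, h4, h5⟩ := hy
    simp only [mem_compl_iff, mem_insert_iff, mem_singleton_iff, not_or]
    exact ⟨h3, h4, fun h => h5 h.symm⟩
  refine (h2.joinedIn _ ⟨y, hmem y h, rfl⟩ _ ⟨y', hmem y' h', rfl⟩).mono ?_
  rintro _ ⟨z, hz, rfl⟩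
  simp only [mem_compl_iff, mem_insert_iff, mem_singleton_iff, not_or] at hz
  exact ⟨h.1, h.2.1, hz.1, hz.2.1, fun h => hz.2.2 h.symm⟩

theorem mmc_joinedIn_fst {x x' y : ℂ} (h : (x, y) ∈ MM) (h' : (x', y) ∈ MM) :
    JoinedIn MM (x, y) (x', y) := by
  have h1 := mmc_joinedIn_snd (x := y) (y := x) (y' := x') (swap_mem_MM h) (swap_mem_MM h')
  have h2 : JoinedIn (Prod.swap '' MM) (Prod.swap (y, x)) (Prod.swap (y, x')) := by
    obtain ⟨γ, hγ⟩ := h1
    exact ⟨γ.map continuous_swap, fun t => ⟨γ t, hγ t, rfl⟩⟩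
  refine h2.mono ?_
  rintro _ ⟨z, hz, rfl⟩
  exact swap_mem_MM hz

/-- Module MMC -/
theorem mmc : MmcStmt := by
  have h0 : ((2 : ℂ), (3 : ℂ)) ∈ MM := by
    refine ⟨?_, ?_, ?_, ?_, ?_⟩ <;> norm_num
  have : IsPathConnected MM := by
    refine ⟨(2, 3), h0, ?_⟩
    rintro ⟨x, y⟩ h
    -- a common second coordinate
    obtain ⟨z, hz⟩ : ∃ z : ℂ, z ∉ ({0, 1, 2, x} : Set ℂ) := by
      have := ((Set.toFinite ({0, 1, 2, x} : Set ℂ)).infinite_compl).nonempty
      exact this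
    simp only [mem_insert_iff, mem_singleton_iff, not_or] at hz
    obtain ⟨h1, h2, h3, h4⟩ := hz
    have e1 : ((2 : ℂ), z) ∈ MM := ⟨h0.1, h0.2.1, h1, h2, fun h => h3 h.symm⟩
    have e2 : (x, z) ∈ MM := ⟨h.1, h.2.1, h1, h2, fun h => h4 h.symm⟩
    exact ((mmc_joinedIn_snd h0 e1).trans (mmc_joinedIn_fst e1 e2)).trans
      (mmc_joinedIn_snd e2 h)
  exact this.isConnected

/-! ## UNI -/

/-- Module UNI -/
theorem uni (h : PhdStmt) : UniStmt := by
  intro K hK hKY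
  refine hK.induction_on (p := fun S => ∃ r > 0, ∀ q ∈ S, ∃ s : ℂ × ℂ → ℂ × ℂ,
    ContinuousOn s (ball (Phi q) r) ∧ (∀ m ∈ ball (Phi q) r, s m ∈ YY ∧ Phi (s m) = m) ∧
    s (Phi q) = q) ?_ ?_ ?_ ?_
  · exact ⟨1, one_pos, fun q hq => absurd hq (notMem_empty q)⟩
  · rintro S T hST ⟨r, hr, h1⟩
    exact ⟨r, hr, fun q hq => h1 q (hST hq)⟩
  · rintro S T ⟨r, hr, h1⟩ ⟨r', hr', h1'⟩
    refine ⟨min r r', lt_min hr hr', ?_⟩
    rintro q (hq | hq)
    · obtain ⟨s, hs1, hs2, hs3⟩ := h1 q hq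
      have hsub : ball (Phi q) (min r r') ⊆ ball (Phi q) r := ball_subset_ball (min_le_left _ _)
      exact ⟨s, hs1.mono hsub, fun m hm => hs2 m (hsub hm), hs3⟩
    · obtain ⟨s, hs1, hs2, hs3⟩ := h1' q hq
      have hsub : ball (Phi q) (min r r') ⊆ ball (Phi q) r' := ball_subset_ball (min_le_right _ _)
      exact ⟨s, hs1.mono hsub, fun m hm => hs2 m (hsub hm), hs3⟩
  · intro q hq
    obtain ⟨-, -, -, -, -, L, hL, -⟩ := h q (hKY hq)
    let e := hL.toOpenPartialHomeomorph Phi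
    have he : ∀ x, e x = Phi x := fun x => rfl
    have hqs : q ∈ e.source := hL.mem_toOpenPartialHomeomorph_source
    -- the restriction to `YY`
    let e' := e.restrOpen YY isOpen_YY
    have hqs' : q ∈ e'.source := by
      rw [OpenPartialHomeomorph.restrOpen_source]
      exact ⟨hqs, hKY hq⟩
    have he' : ∀ x, e' x = Phi x := fun x => rfl
    have hqt : Phi q ∈ e'.target := e'.map_source hqs'
    obtain ⟨r, hr, hrt⟩ := Metric.isOpen_iff.1 e'.open_target (Phi q) hqt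
    have hcont : ContinuousAt Phi q := hL.continuousAt
    have h1 : ∀ᶠ x in 𝓝 q, Phi x ∈ ball (Phi q) (r / 2) :=
      hcont.eventually (ball_mem_nhds _ (by linarith))
    have h2 : ∀ᶠ x in 𝓝 q, x ∈ e'.source := e'.open_source.mem_nhds hqs'
    refine ⟨{x | Phi x ∈ ball (Phi q) (r / 2) ∧ x ∈ e'.source},
      mem_nhdsWithin_of_mem_nhds (h1.and h2), r / 2, by linarith, ?_⟩
    rintro x ⟨hx1, hx2⟩
    have hsub : ball (Phi x) (r / 2) ⊆ e'.target := by
      intro m hm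
      apply hrt
      rw [mem_ball] at hm hx1 ⊢
      linarith [dist_triangle m (Phi x) (Phi q)]
    refine ⟨e'.symm, e'.continuousOn_symm.mono hsub, fun m hm => ?_, ?_⟩
    · have h3 := e'.map_target (hsub hm)
      rw [OpenPartialHomeomorph.restrOpen_source] at h3
      exact ⟨h3.2, e'.right_inv (hsub hm)⟩
    · exact e'.left_inv hx2

/-! ## SCV -/

/-- Module SCV -/
theorem scv : ScvStmt := by
  intro X V _ _ _ j π hj hπ h
  rw [simply_connected_iff_paths_homotopic']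
  have hs : Function.Surjective π := fun v => ⟨j v, h v⟩
  refine ⟨hs.pathConnectedSpace hπ, ?_⟩
  intro x y p₁ p₂
  have h1 : (p₁.map hj).Homotopic (p₂.map hj) := SimplyConnectedSpace.paths_homotopic _ _
  obtain ⟨F⟩ := h1
  have h2 : ((p₁.map hj).map hπ).Homotopic ((p₂.map hj).map hπ) := ⟨F.map ⟨π, hπ⟩⟩
  have e1 : ((p₁.map hj).map hπ).cast (h x).symm (h y).symm = p₁ := by
    ext t
    simp [h]
  have e2 : ((p₂.map hj).map hπ).cast (h x).symm (h y).symm = p₂ := by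
    ext t
    simp [h]
  rw [← e1, ← e2]
  obtain ⟨G⟩ := h2
  exact ⟨{ toFun := G, continuous_toFun := G.continuous_toFun
           map_zero_left := fun t => G.map_zero_left t
           map_one_left := fun t => G.map_one_left t
           prop' := fun t s hs => G.prop' t s hs }⟩

end Pool.Agent.H63.TC
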