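import Pool.Agent.H63.TC.Stmts

/-!
# Module PHC: `Phi : YY → MM` is a surjective covering map
-/

open Complex Metric Set Filter Topology

namespace Pool.Agent.H63.TC

theorem phc_inv_G2 {a b c d : ℤ} (h : G2 a b c d) : G2 d (-b) (-c) a := by
  obtain ⟨h1, h2, h3, h4, h5⟩ := h
  exact ⟨by linarith, h5, h3.neg, h4.neg, h2⟩

theorem phc_act_inv {a b c d : ℤ} (h : a * d - b * c = 1) (m n : ℤ) {q : ℂ × ℂ}
    (hq : 0 < q.1.im) :
    act d (-b) (-c) a (-(m * a + n * c)) (-(m * b + n * d)) (act a b c d m n q) = q := by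
  obtain ⟨τ, u⟩ := q
  have hτ : 0 < τ.im := hq
  have hd := denom_ne_zero h hτ
  have h' : (a : ℂ) * d - b * c = 1 := by exact_mod_cast h
  have hd2 : ((((-c : ℤ) : ℂ)) * ((a * τ + b) / (c * τ + d)) + a) = 1 / (c * τ + d) := by
    have := act_denom h hτ
    field_simp at this ⊢
    push_cast
    linear_combination h'
  have e3 : ((a * τ + b) / (c * τ + d)) * (c * τ + d) = a * τ + b := div_mul_cancel₀ _ hd
  have e1 : (((d : ℂ)) * ((a * τ + b) / (c * τ + d)) + ((-b : ℤ) : ℂ)) = τ / (c * τ + d) := by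
    rw [eq_div_iff hd]
    push_cast
    linear_combination d * e3 + τ * h'
  have e2 : (((d : ℂ)) * ((a * τ + b) / (c * τ + d)) + ((-b : ℤ) : ℂ)) /
      ((((-c : ℤ) : ℂ)) * ((a * τ + b) / (c * τ + d)) + a) = τ := by
    rw [hd2, e1, div_div_eq_mul_div, div_mul_cancel₀ _ hd, div_one]
  unfold act
  dsimp only
  refine Prod.ext e2 ?_
  dsimp only
  rw [e2, hd2]
  have e4 : u / (c * τ + d) * (c * τ + d) = u := div_mul_cancel₀ _ hd
  rw [div_div_eq_mul_div, div_one]
  push_cast
  linear_combination e4 + 2 * m * e3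

theorem phc_continuousOn_act {a b c d : ℤ} (h : a * d - b * c = 1) (m n : ℤ) :
    ContinuousOn (act a b c d m n) YY := by
  unfold act
  have h1 : ContinuousOn (fun q : ℂ × ℂ => (a * q.1 + b) / (c * q.1 + d)) YY := by
    refine ContinuousOn.div (by fun_prop) (by fun_prop) ?_
    intro q hq
    exact denom_ne_zero h hq.1
  refine ContinuousOn.prodMk h1 ?_
  refine ContinuousOn.add (ContinuousOn.add ?_ ?_) continuousOn_const
  · refine ContinuousOn.div (by fun_prop) (by fun_prop) ?_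
    intro q hq
    exact denom_ne_zero h hq.1
  · exact continuousOn_const.mul h1

/-- Module PHC -/
theorem phc (hcov : CovStmt) (huni : UniStmt) (hfnd : FndStmt) (hinv : InvStmt) (hmmc : MmcStmt)
    (hphd : PhdStmt) : PhcStmt := by
  classical
  have hmem : ∀ q : YY, Phi (q : ℂ × ℂ) ∈ MM := fun q => (hphd q q.2).1
  have hcont : ContinuousOn Phi YY := by
    intro q hq
    obtain ⟨-, -, -, -, -, L, hL, -⟩ := hphd q hq
    exact hL.continuousAt.continuousWithinAt
  have hπ : Continuous (fun q : YY => (⟨Phi (q : ℂ × ℂ), hmem q⟩ : MM)) :=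
    (hcont.comp_continuous continuous_subtype_val fun q => q.2).subtype_mk _
  have hcovm : IsCoveringMap (fun q : YY => (⟨Phi (q : ℂ × ℂ), hmem q⟩ : MM)) := by
    refine hcov YY MM _ hπ ?_ ?_
    · rintro ⟨q, hq⟩
      obtain ⟨-, -, -, -, -, L, hL, -⟩ := hphd q hq
      let e := hL.toOpenPartialHomeomorph Phi
      have hqs : q ∈ e.source := hL.mem_toOpenPartialHomeomorph_source
      refine ⟨Subtype.val ⁻¹' e.source, ?_, ?_⟩
      · exact (e.open_source.preimage continuous_subtype_val).mem_nhds hqs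
      · rintro ⟨x, hx⟩ hxs ⟨y, hy⟩ hys hxy
        have h1 : Phi x = Phi y := congrArg Subtype.val hxy
        exact Subtype.ext (e.injOn hxs hys h1)
    · rintro ⟨m₀, hm₀⟩
      obtain ⟨ρ₀, hρ₀, hρM⟩ := Metric.nhds_basis_closedBall.mem_iff.1 (isOpen_MM.mem_nhds hm₀)
      obtain ⟨K', hK'c, hK'Y, hK'⟩ := hfnd (closedBall m₀ ρ₀) (isCompact_closedBall _ _) hρM
      obtain ⟨r, hr, hrs⟩ := huni K' hK'c hK'Y
      obtain ⟨ρ, hρ, hρ1, hρ2⟩ : ∃ ρ > 0, ρ ≤ ρ₀ ∧ 2 * ρ ≤ r :=
        ⟨min ρ₀ (r / 2), lt_min hρ₀ (by linarith), min_le_left _ _, by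
          have := min_le_right ρ₀ (r / 2); linarith⟩
      have hbM : ball m₀ ρ ⊆ MM := (ball_subset_ball hρ1).trans (ball_subset_closedBall.trans hρM)
      refine ⟨Subtype.val ⁻¹' ball m₀ ρ, isOpen_ball.preimage continuous_subtype_val,
        mem_ball_self hρ, ?_, ?_⟩
      · have h1 : IsPreconnected (Subtype.val '' (Subtype.val ⁻¹' ball m₀ ρ : Set MM)) := by
          have : (Subtype.val '' (Subtype.val ⁻¹' ball m₀ ρ : Set MM)) = ball m₀ ρ := by
            rw [Subtype.image_preimage_coe]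
            exact inter_eq_right.2 hbM
          rw [this]
          exact (convex_ball _ _).isPreconnected
        exact Topology.IsInducing.subtypeVal.isPreconnected_image.1 h1
      · rintro ⟨q, hq⟩ hqU
        have hqU' : Phi q ∈ ball m₀ ρ := hqU
        obtain ⟨a, b, c, d, m, n, hG, hact⟩ := hK' q hq
          (ball_subset_closedBall (ball_subset_ball hρ1 hqU'))
        obtain ⟨hY, hΦ⟩ := hinv a b c d m n hG q hq
        obtain ⟨s, hs1, hs2, hs3⟩ := hrs _ hact
        rw [hΦ] at hs1 hs2 hs3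
        have hsub : ball m₀ ρ ⊆ ball (Phi q) r := by
          intro x hx
          rw [mem_ball] at hx hqU' ⊢
          have := dist_triangle x m₀ (Phi q)
          rw [dist_comm m₀] at this
          linarith
        have hGi := phc_inv_G2 hG
        -- the transported section
        let s' : ℂ × ℂ → ℂ × ℂ := fun x =>
          act d (-b) (-c) a (-(m * a + n * c)) (-(m * b + n * d)) (s x)
        have hs' : ∀ x ∈ ball m₀ ρ, s' x ∈ YY ∧ Phi (s' x) = x := by
          intro x hx
          obtain ⟨h1, h2⟩ := hs2 x (hsub hx)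
          obtain ⟨h3, h4⟩ := hinv _ _ _ _ (-(m * a + n * c)) (-(m * b + n * d)) hGi (s x) h1
          exact ⟨h3, h4.trans h2⟩
        have hs'c : ContinuousOn s' (ball m₀ ρ) :=
          (phc_continuousOn_act hGi.1 _ _).comp (hs1.mono hsub) fun x hx => (hs2 x (hsub hx)).1
        have hs'q : s' (Phi q) = q := by
          change act _ _ _ _ _ _ (s (Phi q)) = q
          rw [hs3]
          exact phc_act_inv hG.1 m n hq.1
        refine ⟨fun x => if h : (x : ℂ × ℂ) ∈ ball m₀ ρ then ⟨s' x, (hs' x h).1⟩ else ⟨q, hq⟩,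
          ?_, ?_, ?_⟩
        · rw [Topology.IsInducing.subtypeVal.continuousOn_iff]
          have h1 : ContinuousOn (fun x : MM => s' (x : ℂ × ℂ)) (Subtype.val ⁻¹' ball m₀ ρ) :=
            hs'c.comp continuous_subtype_val.continuousOn fun x hx => hx
          refine h1.congr fun x hx => ?_
          have hx' : (x : ℂ × ℂ) ∈ ball m₀ ρ := hx
          simp only [Function.comp_apply, dif_pos hx']
        · intro x hx
          have hx' : (x : ℂ × ℂ) ∈ ball m₀ ρ := hx
          refine Subtype.ext ?_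
          simp only [dif_pos hx']
          exact (hs' x hx').2
        · simp only [dif_pos hqU']
          exact Subtype.ext hs'q
  refine ⟨hmem, hcovm, ?_⟩
  -- surjectivity
  have hconn : PreconnectedSpace MM := Subtype.preconnectedSpace hmmc.isPreconnected
  have hopen : IsOpen (range (fun q : YY => (⟨Phi (q : ℂ × ℂ), hmem q⟩ : MM))) :=
    hcovm.isOpenMap.isOpen_range
  have hclosed : IsClosed (range (fun q : YY => (⟨Phi (q : ℂ × ℂ), hmem q⟩ : MM))) := by
    rw [← isOpen_compl_iff, isOpen_iff_mem_nhds]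
    intro m hm
    obtain ⟨-, U, hxU, hU, -, H, -⟩ := hcovm m
    refine mem_of_superset (hU.mem_nhds hxU) ?_
    rintro _ hx ⟨e, rfl⟩
    obtain ⟨e', he'⟩ := (H ⟨e, hx⟩).2
    exact hm ⟨e', he'⟩
  have hne : (range (fun q : YY => (⟨Phi (q : ℂ × ℂ), hmem q⟩ : MM))).Nonempty := by
    have : (I, ((1 / 2 : ℝ) : ℂ) * I + ((0 : ℝ) : ℂ)) ∈ YY :=
      leaf_mem_YY (by simp) (fun h => half_not_int h.1)
    exact ⟨_, ⟨_, this⟩, rfl⟩
  rw [← range_eq_univ]
  exact IsClopen.eq_univ ⟨hclosed, hopen⟩ hne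

end Pool.Agent.H63.TC
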